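import Pool.Agent.H6.FN.TargetsG

/-!
# MP_7500ea_al, board fcn_modules, row AUA
-/

open scoped Classical

namespace Pool.Agent.H19.FN

open FI

theorem pf_AUA (A3C : T_A3C) (A3I : T_A3I) : T_AUA := by
  intro m hm
  have h1 : ∀ φ : MulAut (alternatingGroup (Fin m)), ∃ σ : Equiv.Perm (Fin m),
      ∀ g : alternatingGroup (Fin m),
        ((φ g : alternatingGroup (Fin m)) : Equiv.Perm (Fin m)) = σ * g * σ⁻¹ :=
    fun φ => A3I m (by omega) φ (fun g hg => A3C m hm φ g hg)
  choose F hF using h1
  have hinj : Function.Injective F := by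
    intro φ ψ h
    apply MulEquiv.ext
    intro g
    apply Subtype.ext
    rw [hF φ g, hF ψ g, h]
  have h2 := Nat.card_le_card_of_injective F hinj
  rw [Nat.card_perm, Nat.card_fin] at h2
  exact h2

end Pool.Agent.H19.FN
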