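import Pool.Agent.H6.FN.Targets
import Pool.Agent.H6.FC.Lem

/-!
# MP_7500ea_al, board fcn_modules, row MLN
-/

open scoped Classical ComplexConjugate

namespace Pool.Agent.H19.FN

open FI AMc AMt

theorem pf_MLN (SOL : T_SOL) : T_MLN := by
  intro P Q0 Y _ _ n M hsol hSer hne
  obtain ⟨M0, Mnor, Mmono, hfac, -⟩ := hSer
  have hmon : Monotone M := monotone_nat_of_le_succ Mmono
  have hn : n ≠ 0 := by
    intro h
    rw [h, M0] at hne
    exact hne rfl
  have hex : ∃ i, M (i + 1) ≠ ⊥ := by
    refine ⟨n - 1, ?_⟩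
    rw [Nat.sub_add_cancel (Nat.one_le_iff_ne_zero.2 hn)]
    exact hne
  have h0 := Nat.find_spec hex
  have h1 : ∀ j, j < Nat.find hex → M (j + 1) = ⊥ := fun j hj =>
    not_not.1 (Nat.find_min hex hj)
  set i := Nat.find hex with hi
  have h2 : M i = ⊥ := by
    rcases Nat.eq_zero_or_pos i with h | h
    · rw [h]; exact M0
    · have h3 := h1 (i - 1) (by omega)
      rwa [Nat.sub_add_cancel h] at h3
  have hin : i < n := by
    by_contra hcon
    push Not at hcon
    have h3 := hmon hcon
    rw [h2] at h3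
    exact hne (le_bot_iff.1 h3)
  obtain ⟨Q, instQ, f, hf, hker, hQ⟩ := hfac i hin
  have hinj : Function.Injective f := by
    rw [injective_iff_map_eq_one]
    intro x hx
    have h3 := (hker x).1 hx
    rw [h2, Subgroup.mem_bot] at h3
    exact Subtype.ext h3
  let e : M (i + 1) ≃* Q := MulEquiv.ofBijective f ⟨hinj, hf⟩
  rcases hQ with hQ | ⟨k, S, instS, finS, hPk, ⟨hQ⟩⟩
  · exfalso
    have := hQ
    have h3 : Group.IsSolvable (M (i + 1)) := Group.isSolvable_of_isSolvable_injective hinj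
    have h4 := (SOL Y).2.1 (M (i + 1)) (Mnor _) h3
    rw [hsol] at h4
    exact h0 (le_bot_iff.1 h4)
  · refine ⟨M (i + 1), Mnor _, k, S, instS, finS, hmon (by omega), ?_, hPk, ⟨e.trans hQ⟩⟩
    by_contra hk
    have hk0 : k = 0 := by omega
    subst hk0
    apply h0
    rw [Subgroup.eq_bot_iff_forall]
    intro x hx
    have h3 : (e.trans hQ) ⟨x, hx⟩ = (e.trans hQ) 1 := by
      funext j
      exact j.elim0
    have h4 := (e.trans hQ).injective h3
    exact congrArg Subtype.val h4

end Pool.Agent.H19.FN
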