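import Pool.Agent.H6.FN.Targets
import Pool.Agent.H6.FC.Lem

/-!
# MP_7500ea_al, board fcn_modules, row TKY
-/

open scoped Classical ComplexConjugate

namespace Pool.Agent.H19.FN

open FI AMc AMt

/-- A nontrivial finite group has a minimal normal subgroup. -/
theorem exists_minN (Y : Type) [Group Y] [Finite Y] (h : (⊤ : Subgroup Y) ≠ ⊥) :
    ∃ L : Subgroup Y, MinN L := by
  have hex : ∃ n : ℕ, ∃ L : Subgroup Y, L.Normal ∧ L ≠ ⊥ ∧ Nat.card L = n :=
    ⟨_, ⊤, inferInstance, h, rfl⟩
  obtain ⟨L, hL, hL0, hLn⟩ := Nat.find_spec hex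
  refine ⟨L, hL, hL0, ?_⟩
  intro M hM hML
  by_cases hM0 : M = ⊥
  · exact Or.inl hM0
  · right
    have h1 : Nat.find hex ≤ Nat.card M := Nat.find_min' hex ⟨M, hM, hM0, rfl⟩
    rw [← hLn] at h1
    exact Subgroup.eq_of_le_of_card_ge hML h1

theorem cen_ne_top {e : ℝ} (Y : Type) [Group Y] [Finite Y] (L : Subgroup Y) (hL : L ≠ ⊥)
    (k : ℕ) (S : Type) [Group S] (hS : Few e S) (f : L ≃* (Fin k → S)) :
    Subgroup.centralizer (L : Set Y) ≠ ⊤ := by
  intro hC
  have hk : k ≠ 0 := by
    intro h0
    subst h0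
    apply hL
    rw [Subgroup.eq_bot_iff_forall]
    intro x hx
    have h3 : f ⟨x, hx⟩ = f 1 := by
      funext j
      exact j.elim0
    exact congrArg Subtype.val (f.injective h3)
  obtain ⟨a, b, hab⟩ := hS.nab
  apply hab
  have hcom : ∀ x y : L, x * y = y * x := by
    intro x y
    apply Subtype.ext
    have h4 : (y : Y) ∈ Subgroup.centralizer (L : Set Y) := by
      rw [hC]; exact Subgroup.mem_top _
    exact (Subgroup.mem_centralizer_iff.1 h4) x x.2
  have h5 := hcom (f.symm fun _ => a) (f.symm fun _ => b)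
  have h6 := congrArg f h5
  rw [map_mul, map_mul, MulEquiv.apply_symm_apply, MulEquiv.apply_symm_apply] at h6
  exact congrFun h6 ⟨0, Nat.pos_of_ne_zero hk⟩

theorem pf_TKY (TPN : T_TPN) (TKQ : T_TKQ) (NAG : T_NAG) : T_TKY := by
  intro e he
  have key : ∀ n : ℕ, ∀ (Y : Type) [Group Y] [Finite Y], Nat.card Y = n → Top (Few e) Y →
      (kc Y : ℝ) ≤ (Nat.card Y : ℝ) ^ (1 / 2 - 3 / (2 * e)) := by
    intro n
    induction n using Nat.strong_induction_on with
    | _ n ih =>
      intro Y _ _ hn hT
      by_cases htop : (⊤ : Subgroup Y) = ⊥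
      · have hs : Subsingleton Y := by
          constructor
          intro a b
          have ha : a ∈ (⊥ : Subgroup Y) := by rw [← htop]; exact Subgroup.mem_top _
          have hb : b ∈ (⊥ : Subgroup Y) := by rw [← htop]; exact Subgroup.mem_top _
          rw [Subgroup.mem_bot] at ha hb
          rw [ha, hb]
        have h1 : Nat.card Y = 1 := Nat.card_of_subsingleton 1
        have h2 : kc Y ≤ Nat.card Y :=
          Nat.card_le_card_of_surjective (ConjClasses.mk : Y → ConjClasses Y)
            ConjClasses.mk_surjective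
        rw [h1] at h2 ⊢
        rw [Nat.cast_one, Real.one_rpow]
        exact_mod_cast h2
      · obtain ⟨L, hL⟩ := exists_minN Y htop
        obtain ⟨k, S, instS, finS, hS, ⟨f⟩⟩ := hT L hL
        have hLn := hL.nor
        have hC := cen_ne_top Y L hL.ne k S hS f
        have hcard : Nat.card (Subgroup.centralizer (L : Set Y)) < Nat.card Y := by
          have h1 := Subgroup.card_le_card_group (Subgroup.centralizer (L : Set Y))
          refine lt_of_le_of_ne h1 fun h2 => hC ?_
          exact (Subgroup.card_eq_iff_eq_top _).1 h2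
        have hTC : Top (Few e) (Subgroup.centralizer (L : Set Y)) :=
          TPN (Few e) (fun S _ h => ⟨h.sim, h.nab⟩) Y hT _ inferInstance
        have h3 := ih _ (hn ▸ hcard) (Subgroup.centralizer (L : Set Y)) rfl hTC
        have h4 := TKQ e he Y L k S hS ⟨f⟩
        have h5 := NAG Y (Subgroup.centralizer (L : Set Y))
        have h6 := Subgroup.card_mul_index (Subgroup.centralizer (L : Set Y))
        have h7 : (kc Y : ℝ) ≤ (kc (Subgroup.centralizer (L : Set Y)) : ℝ) *
            (kc (Y ⧸ Subgroup.centralizer (L : Set Y)) : ℝ) := by exact_mod_cast h5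
        rw [← h6, Nat.cast_mul, Real.mul_rpow (Nat.cast_nonneg _) (Nat.cast_nonneg _)]
        exact h7.trans (mul_le_mul h3 h4 (Nat.cast_nonneg _)
          (Real.rpow_nonneg (Nat.cast_nonneg _) _))
  intro Y _ _ hT
  exact key _ Y rfl hT

end Pool.Agent.H19.FN
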